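import Mathlib
import Pool.Agent.Q259.Spec2

set_option autoImplicit false

open Matrix Finset Filter Pool.Agent.Q259.Spec

namespace Pool.Agent.Results.MP_7ca01f_co.Windmill

/-- `W` is the weight matrix of an edge-deleting `(1 ± ε)`-Laplacian sparsifier of `G`: it is
symmetric and nonnegative, its positive entries are at edges of `G`, at least one edge of `G` has
weight `0`, and the quadratic forms of the Laplacians are comparable. -/
def IsEdgeDeletingSparsifier {V : Type} [Fintype V] [DecidableEq V] (G : SimpleGraph V)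
    [DecidableRel G.Adj] (W : Matrix V V ℝ) (ε : ℝ) : Prop :=
  (∀ u v, W u v = W v u) ∧ (∀ u v, 0 ≤ W u v) ∧ (∀ u v, W u v ≠ 0 → G.Adj u v) ∧
    (∃ u v, G.Adj u v ∧ W u v = 0) ∧
    ∀ x : V → ℝ, (1 - ε) * (x ⬝ᵥ (wLap (G.adjMatrix ℝ) *ᵥ x)) ≤ x ⬝ᵥ (wLap W *ᵥ x) ∧
      x ⬝ᵥ (wLap W *ᵥ x) ≤ (1 + ε) * (x ⬝ᵥ (wLap (G.adjMatrix ℝ) *ᵥ x))

/-- vertices: a centre `none` and `4k` cliques of size `2k` -/
abbrev Vt (k : ℕ) : Type := Option (Fin (4 * k) × (Fin k × Bool))

/-- the windmill graph: the centre is joined to everything, and the rest is a disjoint union of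
`4k` cliques with `2k` vertices -/
def wm (k : ℕ) : SimpleGraph (Vt k) where
  Adj a b := match a, b with
    | none, none => False
    | none, some _ => True
    | some _, none => True
    | some (j, p), some (j', p') => j = j' ∧ p ≠ p'
  symm := ⟨by
    rintro (_ | ⟨j, p⟩) (_ | ⟨j', p'⟩) <;> simp
    intro h1 h2
    exact ⟨h1.symm, fun h => h2 h.symm⟩⟩
  loopless := ⟨by rintro (_ | ⟨j, p⟩) <;> simp⟩

instance (k : ℕ) : DecidableRel (wm k).Adj := fun a b =>
  match a, b with
  | none, none => inferInstanceAs (Decidable False)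
  | none, some _ => inferInstanceAs (Decidable True)
  | some _, none => inferInstanceAs (Decidable True)
  | some (j, p), some (j', p') => inferInstanceAs (Decidable (j = j' ∧ p ≠ p'))

/-- weight matrix: centre edges have weight `c b`, the clique edges weight `1` -/
def Wm (k : ℕ) (c : Bool → ℝ) : Matrix (Vt k) (Vt k) ℝ := Matrix.of fun a b =>
  match a, b with
  | none, none => 0
  | none, some (_, p) => c p.2
  | some (_, p), none => c p.2
  | some (j, p), some (j', p') => if j = j' ∧ p ≠ p' then 1 else 0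

theorem adj_eq (k : ℕ) : (wm k).adjMatrix ℝ = Wm k (fun _ => 1) := by
  ext a b
  rw [SimpleGraph.adjMatrix_apply]
  rcases a with _ | ⟨j, p⟩ <;> rcases b with _ | ⟨j', p'⟩
  · simp [wm, Wm]
  · simp [wm, Wm]
  · simp [wm, Wm]
  · exact if_congr Iff.rfl rfl rfl

theorem Wm_symm (k : ℕ) (c : Bool → ℝ) (a b : Vt k) : Wm k c a b = Wm k c b a := by
  rcases a with _ | ⟨j, p⟩ <;> rcases b with _ | ⟨j', p'⟩ <;> simp [Wm]
  simp only [eq_comm]

theorem Wm_herm (k : ℕ) (c : Bool → ℝ) : (Wm k c).IsHermitian := by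
  rw [Matrix.IsHermitian, Matrix.conjTranspose_eq_transpose_of_trivial]
  ext a b
  exact Wm_symm k c b a

theorem sum_V {k : ℕ} (f : Vt k → ℝ) : ∑ v, f v = f none + ∑ j, ∑ p, f (some (j, p)) := by
  rw [Fintype.sum_option, Fintype.sum_prod_type]

theorem sum_P {k : ℕ} (f : Fin k × Bool → ℝ) :
    ∑ p, f p = ∑ i, f (i, true) + ∑ i, f (i, false) := by
  rw [Fintype.sum_prod_type, ← Finset.sum_add_distrib]
  exact Finset.sum_congr rfl fun i _ => by rw [Fintype.sum_bool]

/-- the Laplacian form -/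
theorem form (k : ℕ) (c : Bool → ℝ) (x : Vt k → ℝ) :
    x ⬝ᵥ (wLap (Wm k c) *ᵥ x) = ∑ j, (∑ p, c p.2 * (x (some (j, p)) - x none) ^ 2 +
      (∑ p, ∑ p', (x (some (j, p)) - x (some (j, p'))) ^ 2) / 2) := by
  rw [wLap_form _ (Wm_symm k c)]
  rw [sum_V, sum_V]
  have e1 : ∀ j p, ∑ b, Wm k c (some (j, p)) b * (x (some (j, p)) - x b) ^ 2 =
      c p.2 * (x (some (j, p)) - x none) ^ 2 + ∑ p', (x (some (j, p)) - x (some (j, p'))) ^ 2 := by
    intro j p
    rw [sum_V]
    congr 1
    rw [Finset.sum_eq_single j]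
    · refine Finset.sum_congr rfl fun p' _ => ?_
      by_cases h : p = p'
      · subst h; simp
      · simp [Wm, h]
    · intro j' _ hj'
      refine Finset.sum_eq_zero fun p' _ => ?_
      simp [Wm, Ne.symm hj']
    · intro h; exact absurd (Finset.mem_univ _) h
  simp only [e1]
  have e2 : Wm k c none none * (x none - x none) ^ 2 = 0 := by simp
  rw [e2, zero_add]
  have e3 : ∑ j, ∑ p, Wm k c none (some (j, p)) * (x none - x (some (j, p))) ^ 2 =
      ∑ j, ∑ p, c p.2 * (x (some (j, p)) - x none) ^ 2 := by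
    refine Finset.sum_congr rfl fun j _ => Finset.sum_congr rfl fun p _ => ?_
    simp only [Wm, Matrix.of_apply]
    ring
  rw [e3]
  simp only [Finset.sum_add_distrib]
  rw [← Finset.sum_div]
  ring

/-- one column -/
theorem column (t : ℕ) (ht : 1 ≤ t) (a b : Fin (2 * t ^ 2) → ℝ) :
    |∑ i, a i ^ 2 - ∑ i, b i ^ 2| ≤ (1 / (2 * t) : ℝ) *
      ((∑ i, a i ^ 2 + ∑ i, b i ^ 2) + ∑ i, ∑ i', (a i - b i') ^ 2) := by
  have ht' : (1 : ℝ) ≤ t := by exact_mod_cast ht
  set k : ℝ := 2 * (t : ℝ) ^ 2 with hk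
  have hkpos : 0 < k := by positivity
  have h1 : ∑ i, ∑ i', (a i ^ 2 - b i' ^ 2) = k * (∑ i, a i ^ 2 - ∑ i, b i ^ 2) := by
    simp only [Finset.sum_sub_distrib, Finset.sum_const, Finset.card_univ, Fintype.card_fin,
      nsmul_eq_mul]
    rw [← Finset.mul_sum, hk]
    push_cast
    ring
  have h2 : ∀ i i', |a i ^ 2 - b i' ^ 2| ≤ t * (a i - b i') ^ 2 +
      (1 / (2 * t)) * (a i ^ 2 + b i' ^ 2) := by
    intro i i'
    have e : (1 / (2 * t) : ℝ) * (a i ^ 2 + b i' ^ 2) = (a i ^ 2 + b i' ^ 2) / (2 * t) := by ring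
    rw [e, abs_le]
    have h3 : (a i + b i') ^ 2 ≤ 2 * (a i ^ 2 + b i' ^ 2) := by nlinarith [sq_nonneg (a i - b i')]
    have h4 : (a i + b i') ^ 2 / (4 * t) ≤ (a i ^ 2 + b i' ^ 2) / (2 * t) := by
      rw [div_le_div_iff₀ (by positivity) (by positivity)]
      nlinarith
    have h5 : ∀ s : ℝ, (s = 1 ∨ s = -1) → s * (a i ^ 2 - b i' ^ 2) ≤
        t * (a i - b i') ^ 2 + (a i + b i') ^ 2 / (4 * t) := by
      intro s hs
      have h6 : 0 ≤ (2 * t * (a i - b i') - s * (a i + b i')) ^ 2 := sq_nonneg _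
      have h7 : s ^ 2 = 1 := by rcases hs with rfl | rfl <;> norm_num
      have h8 : t * (a i - b i') ^ 2 + (a i + b i') ^ 2 / (4 * t) - s * (a i ^ 2 - b i' ^ 2) =
          (2 * t * (a i - b i') - s * (a i + b i')) ^ 2 / (4 * t) := by
        field_simp
        linear_combination -(a i + b i') ^ 2 * h7
      have h9 : 0 ≤ (2 * t * (a i - b i') - s * (a i + b i')) ^ 2 / (4 * t) := by positivity
      linarith
    constructor
    · have := h5 (-1) (Or.inr rfl); linarith
    · have := h5 1 (Or.inl rfl); linarith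
  have h3 : k * |∑ i, a i ^ 2 - ∑ i, b i ^ 2| ≤
      t * (∑ i, ∑ i', (a i - b i') ^ 2) + (1 / (2 * t)) * (k * (∑ i, a i ^ 2 + ∑ i, b i ^ 2)) := by
    rw [← abs_of_pos hkpos, ← abs_mul, abs_of_pos hkpos, ← h1]
    refine (Finset.abs_sum_le_sum_abs _ _).trans ?_
    refine (Finset.sum_le_sum fun i _ => Finset.abs_sum_le_sum_abs _ _).trans ?_
    refine (Finset.sum_le_sum fun i _ => Finset.sum_le_sum fun i' _ => h2 i i').trans ?_
    simp only [Finset.sum_add_distrib, ← Finset.mul_sum, Finset.sum_const, Finset.card_univ,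
      Fintype.card_fin, nsmul_eq_mul]
    rw [hk]
    push_cast
    apply le_of_eq
    ring
  have h4 : t * (∑ i, ∑ i', (a i - b i') ^ 2) =
      k * ((1 / (2 * t)) * ∑ i, ∑ i', (a i - b i') ^ 2) := by
    rw [hk]; field_simp
  rw [h4] at h3
  have h5 : k * |∑ i, a i ^ 2 - ∑ i, b i ^ 2| ≤ k * ((1 / (2 * t) : ℝ) *
      ((∑ i, a i ^ 2 + ∑ i, b i ^ 2) + ∑ i, ∑ i', (a i - b i') ^ 2)) := by
    refine h3.trans (le_of_eq ?_)
    ring
  exact le_of_mul_le_mul_left h5 hkpos

/-- the weights of the sparsifier: `2` or `0` -/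
def cH : Bool → ℝ := fun b => if b then 2 else 0

theorem sparsifier (t : ℕ) (ht : 1 ≤ t) :
    IsEdgeDeletingSparsifier (wm (2 * t ^ 2)) (Wm (2 * t ^ 2) cH) (1 / (2 * t)) := by
  have ht' : (1 : ℝ) ≤ t := by exact_mod_cast ht
  refine ⟨Wm_symm _ _, ?_, ?_, ?_, ?_⟩
  · rintro (_ | ⟨j, p⟩) (_ | ⟨j', p'⟩) <;> simp only [Wm, cH, Matrix.of_apply] <;>
      first
        | exact le_refl _
        | (split_ifs <;> norm_num)
  · rintro (_ | ⟨j, p⟩) (_ | ⟨j', p'⟩) h
    · exact absurd rfl h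
    · trivial
    · trivial
    · by_contra hcon
      exact h (if_neg hcon)
  · have hk : 0 < 2 * t ^ 2 := by positivity
    have hk4 : 0 < 4 * (2 * t ^ 2) := by positivity
    exact ⟨none, some (⟨0, hk4⟩, (⟨0, hk⟩, false)), trivial, by simp [Wm, cH]⟩
  · intro x
    rw [adj_eq, form, form]
    have key : |∑ j, (∑ p : Fin (2 * t ^ 2) × Bool, cH p.2 * (x (some (j, p)) - x none) ^ 2 +
        (∑ p, ∑ p', (x (some (j, p)) - x (some (j, p'))) ^ 2) / 2) -
        ∑ j, (∑ p : Fin (2 * t ^ 2) × Bool, 1 * (x (some (j, p)) - x none) ^ 2 +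
        (∑ p, ∑ p', (x (some (j, p)) - x (some (j, p'))) ^ 2) / 2)| ≤
        (1 / (2 * t) : ℝ) * ∑ j, (∑ p : Fin (2 * t ^ 2) × Bool,
          1 * (x (some (j, p)) - x none) ^ 2 +
        (∑ p, ∑ p', (x (some (j, p)) - x (some (j, p'))) ^ 2) / 2) := by
      rw [← Finset.sum_sub_distrib, Finset.mul_sum]
      refine (Finset.abs_sum_le_sum_abs _ _).trans (Finset.sum_le_sum fun j _ => ?_)
      have h1 := column t ht (fun i => x (some (j, (i, true))) - x none)
        (fun i => x (some (j, (i, false))) - x none)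
      have e1 : ∑ p : Fin (2 * t ^ 2) × Bool, cH p.2 * (x (some (j, p)) - x none) ^ 2 +
          (∑ p, ∑ p', (x (some (j, p)) - x (some (j, p'))) ^ 2) / 2 -
          (∑ p : Fin (2 * t ^ 2) × Bool, 1 * (x (some (j, p)) - x none) ^ 2 +
          (∑ p, ∑ p', (x (some (j, p)) - x (some (j, p'))) ^ 2) / 2) =
          ∑ i, (x (some (j, (i, true))) - x none) ^ 2 -
          ∑ i, (x (some (j, (i, false))) - x none) ^ 2 := by
        have eH : ∑ p : Fin (2 * t ^ 2) × Bool, cH p.2 * (x (some (j, p)) - x none) ^ 2 =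
            2 * ∑ i, (x (some (j, (i, true))) - x none) ^ 2 := by
          rw [sum_P, Finset.mul_sum]
          simp [cH]
        have eG : ∑ p : Fin (2 * t ^ 2) × Bool, 1 * (x (some (j, p)) - x none) ^ 2 =
            ∑ i, (x (some (j, (i, true))) - x none) ^ 2 +
            ∑ i, (x (some (j, (i, false))) - x none) ^ 2 := by
          rw [sum_P]; simp only [one_mul]
        rw [eH, eG]
        ring
      rw [e1]
      refine h1.trans (mul_le_mul_of_nonneg_left ?_ (by positivity))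
      have e2 : ∑ p : Fin (2 * t ^ 2) × Bool, 1 * (x (some (j, p)) - x none) ^ 2 =
          ∑ i, (x (some (j, (i, true))) - x none) ^ 2 +
          ∑ i, (x (some (j, (i, false))) - x none) ^ 2 := by
        rw [sum_P]; simp only [one_mul]
      rw [e2]
      have e3 : ∑ i : Fin (2 * t ^ 2), ∑ i' : Fin (2 * t ^ 2),
          ((x (some (j, (i, true))) - x none) -
          (x (some (j, (i', false))) - x none)) ^ 2 ≤
          (∑ p, ∑ p', (x (some (j, p)) - x (some (j, p'))) ^ 2) / 2 := by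
        have e4 : ∑ i : Fin (2 * t ^ 2), ∑ i' : Fin (2 * t ^ 2),
            ((x (some (j, (i, true))) - x none) -
            (x (some (j, (i', false))) - x none)) ^ 2 =
            ∑ i : Fin (2 * t ^ 2), ∑ i' : Fin (2 * t ^ 2),
            (x (some (j, (i, true))) - x (some (j, (i', false)))) ^ 2 :=
          Finset.sum_congr rfl fun i _ => Finset.sum_congr rfl fun i' _ => by ring
        have e5 : ∑ i : Fin (2 * t ^ 2), ∑ i' : Fin (2 * t ^ 2),
            (x (some (j, (i, false))) - x (some (j, (i', true)))) ^ 2 =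
            ∑ i : Fin (2 * t ^ 2), ∑ i' : Fin (2 * t ^ 2),
            (x (some (j, (i, true))) - x (some (j, (i', false)))) ^ 2 := by
          rw [Finset.sum_comm]
          exact Finset.sum_congr rfl fun i _ => Finset.sum_congr rfl fun i' _ => by ring
        rw [e4, sum_P]
        simp only [sum_P, Finset.sum_add_distrib]
        rw [e5]
        have p1 : 0 ≤ ∑ i : Fin (2 * t ^ 2), ∑ i' : Fin (2 * t ^ 2),
            (x (some (j, (i, true))) - x (some (j, (i', true)))) ^ 2 :=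
          Finset.sum_nonneg fun i _ => Finset.sum_nonneg fun i' _ => sq_nonneg _
        have p2 : 0 ≤ ∑ i : Fin (2 * t ^ 2), ∑ i' : Fin (2 * t ^ 2),
            (x (some (j, (i, false))) - x (some (j, (i', false)))) ^ 2 :=
          Finset.sum_nonneg fun i _ => Finset.sum_nonneg fun i' _ => sq_nonneg _
        linarith
      linarith
    rw [abs_le] at key
    constructor <;> linarith [key.1, key.2]

theorem lamG_le (k : ℕ) (hk : 1 ≤ k) : lamMax ((wm k).adjMatrix ℝ) ≤ 4 * k := by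
  have hk' : (1 : ℝ) ≤ k := by exact_mod_cast hk
  rw [adj_eq]
  refine collatz (Wm_herm k _) ?_ (fun v => match v with | none => 2 * (k : ℝ) | some _ => 1)
    ?_ (4 * k) ?_
  · rintro (_ | ⟨j, p⟩) (_ | ⟨j', p'⟩) <;> simp only [Wm, Matrix.of_apply] <;>
      first
        | exact le_refl _
        | exact zero_le_one
        | (split_ifs <;> norm_num)
  · rintro (_ | ⟨j, p⟩)
    · show 0 < 2 * (k : ℝ)
      linarith
    · exact zero_lt_one
  · rintro (_ | ⟨j, p⟩)
    · simp only [Matrix.mulVec, dotProduct]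
      rw [sum_V]
      simp [Wm]
      apply le_of_eq
      ring
    · simp only [Matrix.mulVec, dotProduct]
      rw [sum_V]
      have e1 : ∑ j', ∑ p', Wm k (fun _ => 1) (some (j, p)) (some (j', p')) * 1 ≤
          ∑ p' : Fin k × Bool, (1 : ℝ) - 1 := by
        rw [Finset.sum_eq_single j]
        · have e2 : ∑ p', Wm k (fun _ => 1) (some (j, p)) (some (j, p')) * 1 =
              ∑ p' : Fin k × Bool, ((1 : ℝ) - if p = p' then 1 else 0) := by
            refine Finset.sum_congr rfl fun p' _ => ?_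
            by_cases h : p = p' <;> simp [Wm, h]
          rw [e2, Finset.sum_sub_distrib]
          simp
        · intro j' _ hj'
          refine Finset.sum_eq_zero fun p' _ => ?_
          simp [Wm, Ne.symm hj']
        · intro h; exact absurd (Finset.mem_univ _) h
      have e3 : ∑ p' : Fin k × Bool, (1 : ℝ) = 2 * k := by
        simp; ring
      rw [e3] at e1
      have e4 : Wm k (fun _ => 1) (some (j, p)) none = 1 := rfl
      rw [e4]
      linarith

/-- the test vector -/
def tv (k : ℕ) : Vt k → ℝ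
  | none => 2 * k
  | some (_, (_, b)) => if b then 1 else 0

theorem tv_dot (k : ℕ) : tv k ⬝ᵥ tv k = 8 * k ^ 2 := by
  simp only [dotProduct]
  rw [sum_V]
  simp only [sum_P, tv]
  simp
  ring

theorem tv_mul (k : ℕ) (c : Bool → ℝ) (_hk : 1 ≤ k) : tv k ⬝ᵥ (Wm k c *ᵥ tv k) =
    16 * c true * k ^ 3 + 4 * k ^ 3 - 4 * k ^ 2 := by
  simp only [dotProduct, Matrix.mulVec]
  rw [sum_V]
  simp only [sum_V, sum_P]
  have e1 : ∀ (j j' : Fin (4 * k)) (i i' : Fin k),
      Wm k c (some (j, (i, true))) (some (j', (i', true))) =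
        (if j = j' then 1 else 0) * ((1 : ℝ) - if i = i' then 1 else 0) := by
    intro j j' i i'
    by_cases h1 : j = j' <;> by_cases h2 : i = i' <;> simp [Wm, h1, h2]
  have e2 : ∀ (j j' : Fin (4 * k)) (i i' : Fin k) (b b' : Bool),
      Wm k c (some (j, (i, b))) (some (j', (i', b'))) * tv k (some (j', (i', b'))) =
        if b' then Wm k c (some (j, (i, b))) (some (j', (i', true))) else 0 := by
    intro j j' i i' b b'
    cases b' <;> simp [tv]
  simp only [e2]
  simp only [tv, Bool.false_eq_true, if_false, if_true, Finset.sum_const_zero, add_zero, zero_mul,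
    one_mul, e1]
  have e3 : ∀ j : Fin (4 * k), ∑ i : Fin k, (∑ j' : Fin (4 * k), ∑ i' : Fin k,
      (if j = j' then 1 else 0) * ((1 : ℝ) - if i = i' then 1 else 0)) = k * (k - 1) := by
    intro j
    have : ∀ i : Fin k, (∑ j' : Fin (4 * k), ∑ i' : Fin k,
        (if j = j' then 1 else 0) * ((1 : ℝ) - if i = i' then 1 else 0)) = k - 1 := by
      intro i
      simp only [← Finset.mul_sum, Finset.sum_sub_distrib]
      simp
    simp only [this]
    simp
    ring
  have e4 : Wm k c none none = 0 := rfl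
  have e5 : ∀ (j : Fin (4 * k)) (i : Fin k) (b : Bool), Wm k c none (some (j, (i, b))) = c b :=
    fun _ _ _ => rfl
  have e6 : ∀ (j : Fin (4 * k)) (i : Fin k) (b : Bool), Wm k c (some (j, (i, b))) none = c b :=
    fun _ _ _ => rfl
  simp only [e4, e5, e6, Finset.sum_add_distrib, e3]
  simp
  ring

theorem lamH_ge (k : ℕ) (hk : 1 ≤ k) : (9 * k - 1) / 2 ≤ lamMax (Wm k cH) := by
  have hk' : (1 : ℝ) ≤ k := by exact_mod_cast hk
  have h := rayleigh_le (Wm_herm k cH) (tv k)
  rw [tv_dot, tv_mul k cH hk] at h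
  have hc : cH true = 2 := rfl
  rw [hc] at h
  by_contra hcon
  push Not at hcon
  have h1 : lamMax (Wm k cH) * (8 * (k : ℝ) ^ 2) < (9 * k - 1) / 2 * (8 * (k : ℝ) ^ 2) :=
    mul_lt_mul_of_pos_right hcon (by positivity)
  nlinarith

theorem lamG_pos (k : ℕ) (hk : 1 ≤ k) : 0 < lamMax ((wm k).adjMatrix ℝ) := by
  have hk' : (1 : ℝ) ≤ k := by exact_mod_cast hk
  rw [adj_eq]
  have h := rayleigh_le (Wm_herm k (fun _ => 1)) (tv k)
  rw [tv_dot, tv_mul k _ hk] at h
  by_contra hcon
  push Not at hcon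
  have h1 : lamMax (Wm k fun _ => 1) * (8 * (k : ℝ) ^ 2) ≤ 0 :=
    mul_nonpos_of_nonpos_of_nonneg hcon (by positivity)
  have h2 : (0 : ℝ) < 16 * 1 * k ^ 3 + 4 * k ^ 3 - 4 * k ^ 2 := by
    have : (k : ℝ) ^ 3 ≥ k ^ 2 := by nlinarith [sq_nonneg (k : ℝ)]
    have : 0 < (k : ℝ) ^ 3 := by positivity
    linarith
  linarith

theorem connected (k : ℕ) : (wm k).Connected := by
  have h : ∀ a : Vt k, (wm k).Reachable none a := by
    rintro (_ | p)
    · exact SimpleGraph.Reachable.refl _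
    · exact SimpleGraph.Adj.reachable (show (wm k).Adj none (some p) from trivial)
  exact (SimpleGraph.connected_iff _).mpr ⟨fun a b => (h a).symm.trans (h b), ⟨none⟩⟩

/-- The distortion of the spectral radius under edge-deleting Laplacian sparsifiers is not
bounded by a constant times `ε λ₁`. -/
theorem result : ∃ (V : ℕ → Type) (_ : ∀ n, Fintype (V n)) (_ : ∀ n, DecidableEq (V n))
    (G : ∀ n, SimpleGraph (V n)) (_ : ∀ n, DecidableRel (G n).Adj) (ε : ℕ → ℝ)
    (W : ∀ n, Matrix (V n) (V n) ℝ),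
    (∀ n, (G n).Connected) ∧ (∀ n, 0 < ε n ∧ ε n < 1) ∧
    (∀ n, IsEdgeDeletingSparsifier (G n) (W n) (ε n)) ∧
    Tendsto (fun n => |lamMax (W n) - lamMax ((G n).adjMatrix ℝ)| /
      (ε n * lamMax ((G n).adjMatrix ℝ))) atTop atTop := by
  refine ⟨fun n => Vt (2 * (n + 1) ^ 2), fun n => inferInstance, fun n => inferInstance,
    fun n => wm (2 * (n + 1) ^ 2), fun n => inferInstance, fun n => 1 / (2 * ((n + 1 : ℕ) : ℝ)),
    fun n => Wm (2 * (n + 1) ^ 2) cH, fun n => connected _, fun n => ?_,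
    fun n => sparsifier (n + 1) (by omega), ?_⟩
  · constructor
    · positivity
    · rw [div_lt_one (by positivity)]
      push_cast
      have : (0 : ℝ) ≤ n := Nat.cast_nonneg n
      linarith
  · refine tendsto_atTop_mono (f := fun n : ℕ => (1 / 8 : ℝ) * n) (fun n => ?_)
      (Tendsto.const_mul_atTop (by norm_num) tendsto_natCast_atTop_atTop)
    set t : ℕ := n + 1 with ht
    have ht1 : 1 ≤ t := by omega
    have ht' : (1 : ℝ) ≤ t := by exact_mod_cast ht1
    have hk : 1 ≤ 2 * t ^ 2 := by nlinarith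
    have h1 := lamG_le (2 * t ^ 2) hk
    have h2 := lamH_ge (2 * t ^ 2) hk
    have h3 := lamG_pos (2 * t ^ 2) hk
    push_cast at h1 h2
    have h4 : (0 : ℝ) < 1 / (2 * (t : ℝ)) * lamMax ((wm (2 * t ^ 2)).adjMatrix ℝ) := by positivity
    rw [le_div_iff₀ h4]
    refine le_trans ?_ (le_abs_self _)
    have h5 : (1 / 8 : ℝ) * n * (1 / (2 * (t : ℝ)) * lamMax ((wm (2 * t ^ 2)).adjMatrix ℝ)) ≤
        (1 / 8 : ℝ) * t * (1 / (2 * (t : ℝ)) * (4 * (2 * t ^ 2))) := by
      have hn : (n : ℝ) ≤ t := by rw [ht]; push_cast; linarith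
      have hn0 : (0 : ℝ) ≤ n := Nat.cast_nonneg n
      have h6 : 1 / (2 * (t : ℝ)) * lamMax ((wm (2 * t ^ 2)).adjMatrix ℝ) ≤
          1 / (2 * (t : ℝ)) * (4 * (2 * t ^ 2)) :=
        mul_le_mul_of_nonneg_left h1 (by positivity)
      exact mul_le_mul (by linarith) h6 h4.le (by positivity)
    have h6 : (1 / 8 : ℝ) * t * (1 / (2 * (t : ℝ)) * (4 * (2 * t ^ 2))) = (t : ℝ) ^ 2 / 2 := by
      field_simp
      ring
    rw [h6] at h5
    refine h5.trans ?_
    nlinarith

end Pool.Agent.Results.MP_7ca01f_co.Windmill
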